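import Pool.Agent.helper14.SCO.Spec

/-!
# Row sco:LIN: countable subfamilies
-/

set_option autoImplicit false

namespace Pool.Agent.SCO

open Pool.Agent.Scheepers Cardinal TopologicalSpace

/-- **Row LIN**. -/
theorem LIN : LIN_stmt := by
  classical
  intro Z _ _ 𝒰 hop hF
  obtain ⟨U0, hU0, _⟩ := hF ∅
  let B := countableBasis Z
  have hB : IsTopologicalBasis B := isBasis_countableBasis Z
  have : Countable B := (countable_countableBasis Z).to_subtype
  let un : Finset B → Set Z := fun S => ⋃ b ∈ S, (b : Set Z)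
  let v : Finset B → Set Z := fun S => if h : ∃ U ∈ 𝒰, un S ⊆ U then h.choose else U0
  have hv : ∀ S, v S ∈ 𝒰 := by
    intro S
    show (if h : ∃ U ∈ 𝒰, un S ⊆ U then h.choose else U0) ∈ 𝒰
    split_ifs with h
    · exact h.choose_spec.1
    · exact hU0
  obtain ⟨g, hg⟩ := exists_surjective_nat (Finset B)
  refine ⟨fun m => v (g m), fun m => hv _, fun F => ?_⟩
  obtain ⟨U, hU, hFU⟩ := hF F
  have hx : ∀ x : F, ∃ b : B, (x : Z) ∈ (b : Set Z) ∧ (b : Set Z) ⊆ U := by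
    intro x
    obtain ⟨b, hb, hxb, hbU⟩ := hB.exists_subset_of_mem_open (hFU x.2) (hop U hU)
    exact ⟨⟨b, hb⟩, hxb, hbU⟩
  choose b hb1 hb2 using hx
  let S : Finset B := Finset.univ.image b
  have hS : ∃ U ∈ 𝒰, un S ⊆ U := by
    refine ⟨U, hU, ?_⟩
    refine Set.iUnion₂_subset fun c hc => ?_
    obtain ⟨x, _, rfl⟩ := Finset.mem_image.mp hc
    exact hb2 x
  obtain ⟨m, hm⟩ := hg S
  refine ⟨m, ?_⟩
  have hsub : un S ⊆ v S := by
    show un S ⊆ (if h : ∃ U ∈ 𝒰, un S ⊆ U then h.choose else U0)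
    rw [dif_pos hS]
    exact hS.choose_spec.2
  intro x hx
  show x ∈ v (g m)
  rw [hm]
  refine hsub ?_
  refine Set.mem_iUnion₂.mpr ⟨b ⟨x, hx⟩, Finset.mem_image_of_mem b (Finset.mem_univ _), ?_⟩
  exact hb1 ⟨x, hx⟩

end Pool.Agent.SCO
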