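import Pool.Agent.helper14.SCO.Spec

/-!
# Row sco:TRF: from Cantor space to a set of irrationals
-/

set_option autoImplicit false

namespace Pool.Agent.SCO

open Pool.Agent.Scheepers Cardinal Topology

/-- **Row TRF**. -/
theorem TRF (h1 : LIN_stmt) : TRF_stmt := by
  classical
  intro X hX
  obtain ⟨f, hf1, hf2, hf3⟩ := exists_cantor_irrational
  have hfemb : IsInducing f := (hf2.isClosedEmbedding hf3).isInducing
  let Y : Set ℝ := f '' X
  have hpre : ∀ y : ↥Y, ∃ x ∈ X, f x = y := fun y => y.2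
  choose φ hφ1 hφ2 using hpre
  have hφ : IsInducing φ := by
    have h1 : IsInducing (f ∘ φ) := by
      have : f ∘ φ = (Subtype.val : ↥Y → ℝ) := by
        funext y
        exact hφ2 y
      rw [this]
      exact IsInducing.subtypeVal
    exact (hfemb.of_comp_iff).1 h1
  have hsurj : ∀ x ∈ X, ∃ y : ↥Y, φ y = x := by
    intro x hx
    refine ⟨⟨f x, ⟨x, hx, rfl⟩⟩, hf3 ?_⟩
    rw [hφ2]
  have hsel : Sel φ := by
    intro W b hW hconv
    obtain ⟨κ, hκ⟩ := hX.sel W b hW (by
      intro n x hx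
      obtain ⟨y, hy⟩ := hsurj x hx
      rw [← hy]
      exact hconv n y)
    exact ⟨κ, fun y => hκ (φ y) (hφ1 y)⟩
  refine ⟨Y, ?_, fun A hA => cp_select hφ hsel A hA, ?_, ?_⟩
  · rintro _ ⟨x, _, rfl⟩
    exact hf1 (Set.mem_range_self x)
  · intro 𝒰 h𝒰
    choose u hu1 hu2 using fun n => h1 (↥Y) (𝒰 n) (h𝒰 n).1 (h𝒰 n).2.2
    choose O hO1 hO2 using fun n m => hφ.isOpen_iff.1 ((h𝒰 n).1 (u n m) (hu1 n m))
    obtain ⟨g, hg⟩ := hX.omg O hO1 (by
      intro n A hA
      obtain ⟨m, hm⟩ := hu2 n (Finset.univ.image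
        (fun a : {a // a ∈ A} => (hsurj a.1 (hA a.1 a.2)).choose))
      refine ⟨m, fun a ha => ?_⟩
      have h2 : (hsurj a (hA a ha)).choose ∈ u n m := by
        refine hm ?_
        exact Finset.mem_coe.mpr (Finset.mem_image.mpr
          ⟨(⟨a, ha⟩ : {a // a ∈ A}), Finset.mem_univ _, rfl⟩)
      rw [← hO2 n m] at h2
      have h3 : φ (hsurj a (hA a ha)).choose ∈ O n m := h2
      rw [(hsurj a (hA a ha)).choose_spec] at h3
      exact h3)
    refine ⟨fun n => u n (g n), fun n => hu1 n (g n), fun A => ?_⟩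
    obtain ⟨n, hn⟩ := hg (A.image φ) (by
      intro a ha
      obtain ⟨y, _, rfl⟩ := Finset.mem_image.mp ha
      exact hφ1 y)
    refine ⟨n, fun y hy => ?_⟩
    show y ∈ u n (g n)
    rw [← hO2 n (g n)]
    exact hn (φ y) (Finset.mem_image_of_mem φ hy)
  · let U : ℕ → ℕ → Set ↥Y := fun n m => {y | φ y ∉ F (n, m)}
    have hdlt : ∀ w : ℕ × ℕ, ∃ y : ↥Y, φ y ∈ F w ∧ ∀ w', w' ≠ w → φ y ∉ F w' := by
      intro w
      obtain ⟨y, hy⟩ := hsurj (dlt {w}) (hX.dsub ⟨{w}, 0, fun e _ => rfl⟩)
      refine ⟨y, ?_, ?_⟩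
      · rw [hy]
        intro e he
        show decide (pos e ∉ ({w} : Finset (ℕ × ℕ))) = false
        rw [he]
        exact decide_eq_false (fun h => h (Finset.mem_singleton_self w))
      · intro w' hw' hmem
        rw [hy] at hmem
        obtain ⟨e, _, he⟩ := exists_pos_ge w' 0
        have h2 : decide (pos e ∉ ({w} : Finset (ℕ × ℕ))) = false := hmem e he
        rw [he] at h2
        have h3 := of_decide_eq_false h2
        exact h3 (fun h => hw' (Finset.mem_singleton.mp h))
    have hUinj : ∀ n m n' m', U n m = U n' m' → (n, m) = (n', m') := by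
      intro n m n' m' h
      by_contra hne
      obtain ⟨y, hy1, hy2⟩ := hdlt (n, m)
      have h2 : y ∈ U n' m' := hy2 (n', m') (fun h => hne h.symm)
      rw [← h] at h2
      exact h2 hy1
    have hne : ∀ n m, U n m ≠ Set.univ := by
      intro n m hcon
      obtain ⟨y, hy1, _⟩ := hdlt (n, m)
      have : y ∈ U n m := by rw [hcon]; exact Set.mem_univ y
      exact this hy1
    have hfin : ∀ n y, {m | y ∉ U n m}.Finite := by
      intro n y
      refine (hX.sub (hφ1 y) n).subset ?_
      intro m hm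
      exact not_not.1 hm
    refine ⟨fun n => Set.range (U n), fun n => ⟨?_, ?_, ?_, ?_⟩, ?_⟩
    · refine Set.infinite_range_of_injective ?_
      intro m m' h
      have := hUinj n m n m' h
      exact (Prod.mk.inj this).2
    · rintro _ ⟨m, rfl⟩
      exact ((isClosed_F (n, m)).isOpen_compl).preimage hφ.continuous
    · rintro ⟨m, hm⟩
      exact hne n m hm
    · intro y
      refine ((hfin n y).image (U n)).subset ?_
      rintro _ ⟨⟨m, rfl⟩, hm⟩
      exact ⟨m, hm, rfl⟩
    · intro V hV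
      choose h hh using hV
      obtain ⟨x, hx, hx'⟩ := hX.unb h
      obtain ⟨y, hy⟩ := hsurj x hx
      refine ⟨y, ?_⟩
      have hVinj : Function.Injective V := by
        intro n n' hnn
        rw [← hh n, ← hh n'] at hnn
        exact (Prod.mk.inj (hUinj _ _ _ _ hnn)).1
      refine (hx'.image hVinj.injOn).mono ?_
      rintro _ ⟨n, hn, rfl⟩
      refine ⟨⟨n, rfl⟩, ?_⟩
      rw [← hh n]
      intro hmem
      apply hmem
      rw [hy]
      exact hn

end Pool.Agent.SCO
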